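import Mathlib
import Pool.Agent.H438R3.SidG.Arc

set_option autoImplicit false

open Finset

namespace Pool.Agent.Results.MP_344f7e_co.CircularMonotone

open Pool.Agent.H438R3.SidG

/-- The inequality of the problem for the set `A`, and its analogue for every bipartite pattern `P`. -/
def Sid (G : Type) [AddCommGroup G] [Fintype G] [DecidableEq G] (A : Finset G) : Prop :=
  ((((Finset.univ : Finset ((Fin 5 → G) × (Fin 5 → G))).filter
      (fun p => ∀ i j : Fin 5, (j = i ∨ j = i + 1 ∨ j = i + 2) → p.1 i + p.2 j ∈ A)).card : ℕ) : ℝ)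
    ≥ ((A.card : ℝ) / (Fintype.card G : ℝ)) ^ 15 * (Fintype.card G : ℝ) ^ 10 ∧
  ∀ (k l : ℕ) (P : Finset (Fin k × Fin l)),
    ((A.card : ℝ) / (Fintype.card G : ℝ)) ^ P.card * (Fintype.card G : ℝ) ^ (k + l)
      ≤ ((Finset.univ.filter (fun p : (Fin k → G) × (Fin l → G) =>
          ∀ q ∈ P, p.1 q.1 + p.2 q.2 ∈ A)).card : ℝ)

/-- Sets which are monotone with respect to circular coordinates; in particular preimages of arcs of
cyclic groups, and monotone families. -/
theorem result :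
    (∀ (I G : Type) [Fintype I] [DecidableEq I] [AddCommGroup G] [Fintype G] [DecidableEq G]
      (n : I → ℕ) [∀ i, NeZero (n i)] (σ : I → ℤ) (π : G →+ (∀ i, ZMod (n i))) (A : Finset G),
      Function.Surjective π → Mono n σ π A → Sid G A) ∧
    (∀ (G : Type) [AddCommGroup G] [Fintype G] [DecidableEq G] (N : ℕ) [NeZero N] (χ : G →+ ZMod N),
      Function.Surjective χ → ∀ (a : ℤ) (m : ℕ) (A : Finset G),
      (∀ g, g ∈ A ↔ ∃ k : ℤ, a ≤ k ∧ k < a + m ∧ χ g = (k : ZMod N)) → Sid G A) ∧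
    (∀ (d : ℕ) (A : Finset (Fin d → ZMod 2)),
      (∀ g ∈ A, ∀ h : Fin d → ZMod 2, (∀ i, g i = 0 → h i = 0) → h ∈ A) →
      Sid (Fin d → ZMod 2) A) := by
  have main : ∀ (I G : Type) [Fintype I] [DecidableEq I] [AddCommGroup G] [Fintype G] [DecidableEq G]
      (n : I → ℕ) [∀ i, NeZero (n i)] (σ : I → ℤ) (π : G →+ (∀ i, ZMod (n i))) (A : Finset G),
      Function.Surjective π → Mono n σ π A → Sid G A := by
    intro I G _ _ _ _ _ n _ σ π A hπ hA
    exact ⟨main_five n σ π hπ A hA, fun k l P => main_pattern n σ π hπ A hA k l P⟩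
  refine ⟨main, ?_, ?_⟩
  · intro G _ _ _ N _ χ hχ a m A hA
    refine main Unit G (fun _ => N) (fun _ => 2 * a + m - 1) _ A ?_ (arc_mono N χ a m A hA)
    intro t
    obtain ⟨g, hg⟩ := hχ (t ())
    exact ⟨g, by funext u; exact hg⟩
  · intro d A hA
    exact main (Fin d) (Fin d → ZMod 2) (fun _ => 2) (fun _ => 0) _ A Function.surjective_id
      (cube_mono d A hA)

end Pool.Agent.Results.MP_344f7e_co.CircularMonotone
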